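import Mathlib

set_option autoImplicit false
set_option maxSynthPendingDepth 3

namespace Pool.Agent.Results.MP_12ef09_al.Counter

open Filter Topology

/-- vertices at level `k` of the tree with branching sequence `m`. -/
abbrev Level (m : ℕ → ℕ) (k : ℕ) := (i : Fin k) → Fin (m i)

/-- the parent of a vertex. -/
def parent {m : ℕ → ℕ} {k : ℕ} (v : Level m (k + 1)) : Level m k := fun i => v i.castSucc

/-- `Aut(T)` as the inverse limit of its level actions. -/
def Aut (m : ℕ → ℕ) : Subgroup (∀ k, Equiv.Perm (Level m k)) where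
  carrier := {σ | ∀ k v, parent (σ (k + 1) v) = σ k (parent v)}
  one_mem' _ _ := rfl
  mul_mem' ha hb k v := (ha k _).trans (congrArg _ (hb k v))
  inv_mem' {σ} h k v := (σ k).injective (by rw [← h]; simp)

/-- closed subgroup of `Aut(T)` in the profinite topology. -/
def IsClosedSubgroup {m : ℕ → ℕ} (G : Subgroup (∀ k, Equiv.Perm (Level m k))) : Prop :=
  G ≤ Aut m ∧ ∀ σ ∈ Aut m, (∀ k, ∃ g ∈ G, g k = σ k) → σ ∈ G

/-- proportion of elements of `π_k(H)` fixing a vertex of level `k`. -/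
noncomputable def p {m : ℕ → ℕ} (H : Subgroup (∀ k, Equiv.Perm (Level m k))) (k : ℕ) : ℝ :=
  ({π ∈ (fun σ => σ k) '' (H : Set (∀ k, Equiv.Perm (Level m k))) | ∃ v, π v = v}.ncard : ℝ) /
    ((fun σ => σ k) '' (H : Set (∀ k, Equiv.Perm (Level m k)))).ncard

def Tr : Subgroup (∀ k, Equiv.Perm (Level (fun _ => 2) k)) where
  carrier := {σ | ∀ k, ∃ c, σ k = Equiv.addLeft c}
  one_mem' _ := ⟨0, by ext; simp⟩
  mul_mem' {a b} ha hb k := by
    obtain ⟨c, hc⟩ := ha k
    obtain ⟨d, hd⟩ := hb k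
    exact ⟨c + d, by rw [Pi.mul_apply, hc, hd, Equiv.addLeft_add]⟩
  inv_mem' {a} ha k := by
    obtain ⟨c, hc⟩ := ha k
    exact ⟨-c, by rw [Pi.inv_apply, hc]; simp⟩

/-- On the binary tree there is a closed `G` with `FPP(G) = 0` all of whose `n`-generated
subgroups `H` have `p_k(H) ≥ 2⁻ⁿ` for all `k`. -/
theorem result : ∃ G : Subgroup (∀ k, Equiv.Perm (Level (fun _ => 2) k)), IsClosedSubgroup G ∧
    Tendsto (p G) atTop (𝓝 0) ∧ ∀ (n : ℕ) (g : Fin n → ∀ k, Equiv.Perm (Level (fun _ => 2) k)),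
      (∀ i, g i ∈ G) → ∀ k, (1 / 2 : ℝ) ^ n ≤ p (Subgroup.closure (Set.range g)) k := by
  refine ⟨Aut _ ⊓ Tr, ⟨inf_le_left, fun σ h1 h2 => ⟨h1, fun k => ?_⟩⟩, ?_, fun n g hg k => ?_⟩
  · obtain ⟨g, h3, h4⟩ := h2 k
    exact h4 ▸ h3.2 k
  · refine squeeze_zero (fun k => by unfold p; positivity) (fun k => ?_)
      (tendsto_pow_atTop_nhds_zero_of_lt_one (r := 1 / 2) (by norm_num) (by norm_num))
    rw [one_div_pow]
    refine div_le_div₀ zero_le_one ?_ (by positivity) ?_
    · refine Nat.cast_le_one.2 (Set.ncard_le_one_iff_subsingleton.2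
        (Set.subsingleton_of_forall_eq 1 ?_))
      rintro _ ⟨⟨σ, h, rfl⟩, v, hv⟩
      obtain ⟨c, hc⟩ := h.2 k
      simp only [hc, Equiv.coe_addLeft, add_eq_right] at hv ⊢
      rw [hv]; ext; simp
    · have h1 : (Set.range fun c : Level (fun _ => 2) k => Equiv.addLeft c).ncard = 2 ^ k := by
        rw [Set.ncard_range_of_injective fun a b h => by simpa using DFunLike.congr_fun h 0]
        simp
      refine mod_cast h1.ge.trans (Set.ncard_le_ncard ?_)
      rintro _ ⟨c, rfl⟩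
      exact ⟨fun l => Equiv.addLeft fun i => if h : i.1 < k then c ⟨i, h⟩ else 0,
        ⟨fun _ _ => rfl, fun _ => ⟨_, rfl⟩⟩, by simp⟩
  · choose c hc using fun i => (hg i).2 k
    have h1 : ∀ σ ∈ Subgroup.closure (Set.range g),
        ∃ e : Fin n → Fin 2, σ k = Equiv.addLeft (∑ i, e i • c i) := by
      intro σ hσ
      induction hσ using Subgroup.closure_induction with
      | mem x hx =>
        obtain ⟨i, rfl⟩ := hx
        exact ⟨Pi.single i 1, by simp [hc, Pi.single_apply, ite_smul]⟩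
      | one => exact ⟨0, by ext; simp⟩
      | mul x y _ _ hx hy =>
        obtain ⟨e, he⟩ := hx
        obtain ⟨e', he'⟩ := hy
        exact ⟨e + e', by
          rw [Pi.mul_apply, he, he', ← Equiv.addLeft_add, ← Finset.sum_add_distrib]
          congr 2; funext i j; exact (add_mul _ _ _).symm⟩
      | inv x _ hx =>
        obtain ⟨e, he⟩ := hx
        exact ⟨-e, by
          rw [show ∑ i, (-e) i • c i = -∑ i, e i • c i by
            rw [← Finset.sum_neg_distrib]; congr 1; funext i j; exact neg_mul _ _]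
          simp [he]⟩
    rw [one_div_pow]
    refine div_le_div₀ (by positivity) ?_ ?_ ?_
    · exact Nat.one_le_cast.2 ((Set.ncard_pos (Set.toFinite _)).2 ⟨1, ⟨1, one_mem _, rfl⟩, 0, rfl⟩)
    · exact Nat.cast_pos.2 ((Set.ncard_pos (Set.toFinite _)).2 ⟨1, 1, one_mem _, rfl⟩)
    · have h2 := Set.ncard_image_le (f := fun e : Fin n → Fin 2 => Equiv.addLeft (∑ i, e i • c i))
        (s := Set.univ)
      rw [Set.ncard_univ, Nat.card_eq_fintype_card, Fintype.card_pi_const, Fintype.card_fin] at h2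
      refine mod_cast (Set.ncard_le_ncard ?_).trans h2
      rintro _ ⟨σ, hσ, rfl⟩
      obtain ⟨e, he⟩ := h1 σ hσ
      exact ⟨e, trivial, he.symm⟩

end Pool.Agent.Results.MP_12ef09_al.Counter
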